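import Pool.Agent.H313RC.Err

/-!
# Random linear codes over non-binary fields have only scalar monomial automorphisms

For a finite field `F` with more than two elements and a rate `0 < R < 1`, the probability that a
uniformly random `⌊R n⌋`-dimensional code in `F ^ n` has no monomial automorphism besides the
scalar maps tends to `1`.
-/

set_option autoImplicit false

open Filter Topology Module

namespace Pool.Agent.Results.MP_7f4d3c_lc.RandomCodesAreRigid

variable (F : Type) [Field F]

/-- The monomial map `(d, σ)`: it sends `x` to the vector with entries `d i * x (σ⁻¹ i)`. -/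
def monomial {n : ℕ} (d : Fin n → Fˣ) (σ : Equiv.Perm (Fin n)) : (Fin n → F) →ₗ[F] (Fin n → F) where
  toFun x := fun i => (d i : F) * x (σ⁻¹ i)
  map_add' x y := by funext i; simp [mul_add]
  map_smul' c x := by funext i; simp [mul_left_comm]

/-- The monomial automorphism group of a code, as a set of linear maps. -/
def Aut {n : ℕ} (C : Submodule F (Fin n → F)) : Set ((Fin n → F) →ₗ[F] (Fin n → F)) :=
  {φ | (∃ d σ, φ = monomial F d σ) ∧ C.map φ = C}

/-- The scalar maps `x ↦ c x` with `c ≠ 0`. -/
def scalars (n : ℕ) : Set ((Fin n → F) →ₗ[F] (Fin n → F)) :=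
  {φ | ∃ c : Fˣ, φ = (c : F) • LinearMap.id}

/-- The `[n, k]` codes over `F`. -/
def codes (n k : ℕ) : Set (Submodule F (Fin n → F)) := {C | finrank F C = k}

/-- The probability that a uniformly random `[n, k]` code has only the scalar maps as monomial
automorphisms. -/
noncomputable def prob (n k : ℕ) : ℝ :=
  (Set.ncard {C ∈ codes F n k | Aut F C = scalars F n} : ℝ) / Set.ncard (codes F n k)

theorem result [Finite F] (hF : 2 < Nat.card F) (R : ℝ) (h0 : 0 < R) (h1 : R < 1) :
    Tendsto (fun n : ℕ => prob F n ⌊R * n⌋₊) atTop (𝓝 1) := by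
  classical
  have : Fintype F := Fintype.ofFinite F
  have hq : 3 ≤ Fintype.card F := by rw [Nat.card_eq_fintype_card] at hF; exact hF
  -- the scalar maps are always automorphisms
  have hsc : ∀ (n : ℕ) (C : Submodule F (Fin n → F)), scalars F n ⊆ Aut F C := by
    rintro n C φ ⟨c, rfl⟩
    refine ⟨⟨fun _ => c, 1, ?_⟩, ?_⟩
    · apply LinearMap.ext; intro x; funext i; simp [monomial]
    · apply le_antisymm
      · rintro _ ⟨x, hx, rfl⟩
        exact C.smul_mem _ hx
      · intro x hx
        refine ⟨(c⁻¹ : Fˣ) • x, C.smul_mem _ hx, ?_⟩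
        simp [Units.smul_def]
  have hrig : ∀ (n : ℕ) (C : Submodule F (Fin n → F)), Aut F C = scalars F n ↔ H313RC.Rigid C := by
    intro n C
    constructor
    · intro h d σ hC
      have : monomial F d σ ∈ Aut F C := ⟨⟨d, σ, rfl⟩, hC⟩
      rw [h] at this
      exact this
    · intro h
      apply Set.Subset.antisymm _ (hsc n C)
      rintro φ ⟨⟨d, σ, rfl⟩, hC⟩
      exact h d σ hC
  have hcodes : ∀ n k : ℕ, Set.ncard (codes F n k) =
      (H313RC.A (⊥ : Submodule F (Fin n → F)) k).card := by
    intro n k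
    rw [← Set.ncard_coe_finset]
    congr 1
    ext C
    rw [Finset.mem_coe, H313RC.mem_A]
    simp [codes]
  have hgood : ∀ n k : ℕ, Set.ncard {C ∈ codes F n k | Aut F C = scalars F n} +
      (H313RC.Bad F n k).card = Set.ncard (codes F n k) := by
    intro n k
    rw [← Set.ncard_coe_finset, ← Set.ncard_union_eq]
    · congr 1
      ext C
      rw [Set.mem_union, Finset.mem_coe, H313RC.Bad, Finset.mem_filter]
      simp only [Set.mem_ofPred_eq, hrig, codes]
      by_cases h : H313RC.Rigid C <;> simp [h]
    · rw [Set.disjoint_left]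
      rintro C ⟨_, h⟩ h2
      rw [Finset.mem_coe, H313RC.Bad, Finset.mem_filter] at h2
      exact h2.2.2 ((hrig n C).1 h)
  have hpos : ∀ n k : ℕ, k ≤ n → 0 < (H313RC.A (⊥ : Submodule F (Fin n → F)) k).card := by
    intro n k hkn
    rw [Finset.card_pos]
    obtain ⟨C, hC⟩ : ∃ C : Submodule F (Fin n → F), finrank F C = k := by
      have := H313RC.card_A (⊥ : Submodule F (Fin n → F)) k (by rw [finrank_bot]; omega)
      by_contra hno
      push Not at hno
      have h2 : H313RC.A (⊥ : Submodule F (Fin n → F)) k = ∅ := by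
        rw [Finset.eq_empty_iff_forall_notMem]
        intro C hC
        rw [H313RC.mem_A] at hC
        exact hno C hC.1
      rw [h2, Finset.card_empty, Nat.zero_mul] at this
      have h3 : 0 < ∏ i ∈ Finset.range (k - finrank F (⊥ : Submodule F (Fin n → F))),
          (Fintype.card F ^ finrank F (Fin n → F) -
            Fintype.card F ^ (finrank F (⊥ : Submodule F (Fin n → F)) + i)) := by
        apply Finset.prod_pos
        intro i hi
        rw [Finset.mem_range, finrank_bot] at hi
        rw [H313RC.fr, finrank_bot]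
        exact H313RC.pow_sub_pos (F := F) (by omega)
      omega
    exact ⟨C, H313RC.mem_A.2 ⟨hC, bot_le⟩⟩
  -- lower bound for the probability
  have hle : ∀ᶠ n : ℕ in atTop,
      1 - H313RC.err (Fintype.card F) n ⌊R * n⌋₊ (Nat.sqrt n) ≤ prob F n ⌊R * n⌋₊ := by
    have e1 : ∀ᶠ n : ℕ in atTop, (12 : ℝ) / R ^ 2 + 400 ≤ (n : ℝ) :=
      tendsto_natCast_atTop_atTop.eventually_ge_atTop _
    filter_upwards [e1] with n hn
    set k := ⌊R * (n : ℝ)⌋₊ with hk
    set s := Nat.sqrt n with hs
    have hn0 : (0 : ℝ) ≤ n := Nat.cast_nonneg n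
    have hkn : k ≤ n := by
      have : (k : ℝ) ≤ R * n := Nat.floor_le (by positivity)
      have : (k : ℝ) ≤ n := by nlinarith
      exact_mod_cast this
    have hss : s * s ≤ n := Nat.sqrt_le n
    have hss' : (s : ℝ) * s ≤ n := by exact_mod_cast hss
    have hn400 : (400 : ℝ) ≤ n := by
      have : 0 < 12 / R ^ 2 := by positivity
      linarith
    have hn400' : 400 ≤ n := by exact_mod_cast hn400
    have hs20 : 20 ≤ s := by
      rw [hs, Nat.le_sqrt]; omega
    have h12 : 12 * s + 6 ≤ n := by nlinarith
    have h2k : 2 * s + 1 ≤ k := by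
      rw [hk, Nat.le_floor_iff (by positivity)]
      push_cast
      have hsR : (12 : ℝ) ≤ R ^ 2 * n := by
        have h3 : 12 / R ^ 2 ≤ (n : ℝ) := by linarith
        rw [div_le_iff₀ (by positivity)] at h3
        linarith
      have hs0 : (0 : ℝ) ≤ s := Nat.cast_nonneg s
      have h5 : (20 : ℝ) ≤ s := by exact_mod_cast hs20
      by_contra hcon
      push Not at hcon
      have h6 : R * n < 3 * s := by linarith
      have h7 : (R * n) * (R * n) ≤ (3 * s) * (3 * s) := by
        apply mul_self_le_mul_self (by positivity) h6.le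
      have h8 : R ^ 2 * n * n ≤ 9 * n := by nlinarith
      have h9 : (12 : ℝ) * n ≤ 9 * n := by
        calc (12 : ℝ) * n ≤ R ^ 2 * n * n := mul_le_mul_of_nonneg_right hsR hn0
          _ ≤ 9 * n := h8
      linarith
    have hb := H313RC.bad_le (F := F) (n := n) k s h2k hkn h12 hq
    have hN : (0 : ℝ) < (H313RC.A (⊥ : Submodule F (Fin n → F)) k).card := by
      exact_mod_cast hpos n k hkn
    have hg := hgood n k
    have hg' : (Set.ncard {C ∈ codes F n k | Aut F C = scalars F n} : ℝ) +
        ((H313RC.Bad F n k).card : ℝ) = Set.ncard (codes F n k) := by exact_mod_cast hg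
    unfold prob
    rw [hcodes] at hg' ⊢
    rw [le_div_iff₀ hN]
    linarith
  have hub : ∀ n : ℕ, prob F n ⌊R * n⌋₊ ≤ 1 := by
    intro n
    unfold prob
    apply div_le_one_of_le₀ _ (Nat.cast_nonneg _)
    have := hgood n ⌊R * (n : ℝ)⌋₊
    have h2 : Set.ncard {C ∈ codes F n ⌊R * (n : ℝ)⌋₊ | Aut F C = scalars F n} ≤
        Set.ncard (codes F n ⌊R * (n : ℝ)⌋₊) := by omega
    exact_mod_cast h2
  have hlim : Tendsto (fun n : ℕ => 1 - H313RC.err (Fintype.card F) n ⌊R * n⌋₊ (Nat.sqrt n)) atTop (𝓝 1) := by
    have := (H313RC.err_tendsto (Fintype.card F) hq R h0 h1).const_sub 1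
    simpa using this
  exact tendsto_of_tendsto_of_tendsto_of_le_of_le' hlim tendsto_const_nhds hle
    (Eventually.of_forall hub)

end Pool.Agent.Results.MP_7f4d3c_lc.RandomCodesAreRigid
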